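import Pool.Agent.Lib.MP_4fbe7c_an.ND.Iface
import Pool.Agent.Lib.MP_4fbe7c_an.ND.Base

/-! Project ND, module PRE: nonnegativity; every species is present or absent (helper64). -/

set_option autoImplicit false

open Set MeasureTheory Filter Topology

namespace Pool.Agent.Lib.MP_4fbe7c_an.ND.H64

variable {p N : ℕ} {Ω : Set (Eu p)} {q m : Eu p → ℝ}

/-- The growth rate is bounded on `[0, T]`. -/
theorem rate_bound {d : Fin N → ℝ} {u : Fin N → ℝ → Eu p → ℝ} {v : Fin N → ℝ → Eu p → Eu p}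
    {w : Fin N → ℝ → Eu p → Eu p →L[ℝ] Eu p} (hΩ : Dom Ω q)
    (hm : ContinuousOn m (closure Ω)) (hS : Sol Ω q m d u v w) (T : ℝ) :
    ∃ K : ℝ, 0 < K ∧ ∀ t, 0 ≤ t → t ≤ T → ∀ x ∈ closure Ω, |m x - ∑ j, u j t x| ≤ K := by
  have h1 : ContinuousOn (fun a : ℝ × Eu p => m a.2 - ∑ j, u j a.1 a.2)
      (Icc 0 T ×ˢ closure Ω) := by
    refine ContinuousOn.sub (hm.comp continuous_snd.continuousOn (fun a ha => ha.2)) ?_
    refine continuousOn_finsetSum _ (fun j _ => ?_)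
    exact (hS.evo j).cz.mono fun a ha => ⟨ha.1.1, ha.2⟩
  obtain ⟨C, hC0, hC⟩ := hΩ.exists_bound₂ h1
  exact ⟨C, hC0, fun t ht hT x hx => hC t ⟨ht, hT⟩ x hx⟩

theorem nonneg_of_cmp (hCmp : CmpStatement) {d : Fin N → ℝ} {u : Fin N → ℝ → Eu p → ℝ}
    {v : Fin N → ℝ → Eu p → Eu p} {w : Fin N → ℝ → Eu p → Eu p →L[ℝ] Eu p} (hΩ : Dom Ω q)
    (hm : ContinuousOn m (closure Ω)) (hd : ∀ i, 0 < d i) (hS : Sol Ω q m d u v w)
    (i : Fin N) (t : ℝ) (ht : 0 ≤ t) (x : Eu p) (hx : x ∈ closure Ω) : 0 ≤ u i t x := by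
  obtain ⟨K, hK0, hK⟩ := rate_bound hΩ hm hS t
  have hE := (hS.evo i).lin (hS.evo i) (-1) 0
  have h := hCmp p Ω q _ _ _ _ (d i) K 0 0 t hΩ hE (hd i) hK0.le le_rfl le_rfl ?_ ?_
    t ht le_rfl x hx
  · simp only [zero_mul, add_zero] at h
    linarith
  · intro s hs hst y hy hz
    have h1 := abs_le.mp (hK s hs.le hst y hy)
    simp only [zero_mul, add_zero, neg_mul, one_mul] at hz
    rw [tr_add, tr_smul, tr_smul]
    simp only [zero_mul, add_zero, neg_mul, one_mul]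
    have h2 := mul_le_mul_of_nonneg_left h1.2 hz.le
    nlinarith
  · intro y hy
    have h1 := hS.init i y hy
    simp only [zero_mul, add_zero, neg_mul, one_mul]
    linarith

theorem pre_st (hCmp : CmpStatement) (hPos : PosStatement) : PreStatement := by
  intro p Ω q m N d u v w hΩ hm hd hS i
  have h0 := nonneg_of_cmp hCmp hΩ hm hd hS i
  have hpres : (∃ x ∈ closure Ω, 0 < u i 0 x) → PresN Ω u i := by
    intro hx t ht
    obtain ⟨K, hK0, hK⟩ := rate_bound hΩ hm hS t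
    refine hPos p Ω q (u i) (v i) (w i) _ (d i) K t hΩ (hS.evo i) (hd i) hK0.le
      (fun s hs _ y hy => h0 s hs y hy) ?_ hx t ht le_rfl
    intro s hs hst y hy
    have h1 := abs_le.mp (hK s hs.le hst y hy)
    have h2 := mul_le_mul_of_nonneg_left h1.1 (h0 s hs.le y hy)
    linarith
  refine ⟨h0, hpres, ?_⟩
  by_cases hx : ∃ x ∈ closure Ω, 0 < u i 0 x
  · exact Or.inl (hpres hx)
  · push Not at hx
    refine Or.inr (fun t ht x hxt => le_antisymm ?_ (h0 t ht x hxt))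
    obtain ⟨K, hK0, hK⟩ := rate_bound hΩ hm hS t
    have h := hCmp p Ω q (u i) (v i) (w i) _ (d i) K 0 0 t hΩ (hS.evo i) (hd i) hK0.le
      le_rfl le_rfl ?_ hx t ht le_rfl x hxt
    · simpa using h
    · intro s hs hst y hy hz
      have h1 := abs_le.mp (hK s hs.le hst y hy)
      have h2 := mul_le_mul_of_nonneg_left h1.2 hz.le
      linarith

end Pool.Agent.Lib.MP_4fbe7c_an.ND.H64
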