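import Pool.Agent.Lib.MP_4fbe7c_an.ND.Iface
import Pool.Agent.Lib.MP_4fbe7c_an.ND.Base

/-! Project ND: row THL, a `C2` function with the Neumann condition is Lipschitz. -/

set_option autoImplicit false

open Set MeasureTheory Filter Topology

namespace Pool.Agent.Lib.MP_4fbe7c_an.ND.H64

open Pool.Agent.Lib.MP_4fbe7c_an.ND

/-- THL from LIP, applied to the function which is constant in time. -/
theorem thl_st (hLip : LipStatement) : ThlStatement := by
  intro p Ω q f f' H hΩ hf hn
  obtain ⟨⟨C, c, hC, hc, hL⟩, -⟩ := hLip p Ω q hΩ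
  obtain ⟨M, hM, hfM⟩ := hΩ.exists_bound hf.toC1.c0
  obtain ⟨F, hF, hHF⟩ := hΩ.exists_bound (f := fun x => tr (H x))
    (continuous_tr.comp_continuousOn hf.c2)
  set T : ℝ := min c (M / (8 * F)) with hT
  have hT0 : 0 < T := lt_min hc (by positivity)
  have h1 : 8 * F * T ≤ M := by
    have h2 : T ≤ M / (8 * F) := min_le_right _ _
    have h3 : 0 < 8 * F := by positivity
    rw [le_div_iff₀ h3] at h2
    linarith
  refine ⟨C * M / Real.sqrt (1 * T), by positivity, ?_⟩
  refine hL (fun _ => f) (fun _ => f') (fun _ => H) (fun _ _ => 0) 1 M F T (hf.evo hn) one_pos hM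
    hF.le hT0 ?_ h1 ?_ ?_
  · rw [one_mul]
    exact min_le_left _ _
  · intro t _ _ x hx
    exact hfM x hx
  · intro t _ _ x hx
    have h4 := hHF x hx
    rw [Real.norm_eq_abs] at h4
    rw [one_mul, zero_sub, abs_neg]
    exact h4

end Pool.Agent.Lib.MP_4fbe7c_an.ND.H64
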